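import Pool.Agent.Q138.PS.WO
import Pool.Agent.Q138.PS.WQ
import Pool.Agent.Q138.PS.VE
import Pool.Agent.Q138.AI.Rcda23d

/-!
# Serre's uniformity for elliptic curves with parameters or invariants close to given points

Let `K` be a number field, `Y` a metric space and `p : K → Y` any map (for instance the embedding of `K` in one of its
completions). Let `j = F / G` be a nonconstant rational function over `K`, `F` and `G` coprime, of degree
`max (deg F, deg G)`; for instance `F / G = t`, of degree `1`. For `θ, κ ≥ 0` a parameter `t ∈ K` is good for `(θ, κ)` if `j(t)`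
is finite and over ALL finite extensions `M` of `K`, of whatever degree, with root discriminant `δ_M ≤ δ_K H(j(t)) ^ κ`, for all
elliptic curves over `M` of invariant `j(t)` and ALL primes `ℓ ≥ max (5, 3 / θ)` the image of the Galois group of `M` in
`Aut (E[ℓ])` contains `SL₂(𝔽_ℓ)`. `H` is the height relative to `K` (the absolute one in `H(j(t)) ^ κ`).

(1) For `θ, κ ≥ 0`, `τ > 0` and `D` there is a set `Z ⊆ Y` of Hausdorff dimension at most `(1 + D (θ + κ)) / τ` such that for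
`z ∈ Y` outside `Z`, all `F / G` of degree at most `D` and all `c` all but finitely many of the `t ∈ K` with
`dist (p t, z) ≤ c H(t) ^ (-τ)` are good for `(θ, κ)`.

(2) There is ONE set `Z ⊆ Y` of Hausdorff dimension ZERO such that for `z ∈ Y` outside `Z`, every `F / G` over `K` which has two
different poles on the projective line over the algebraic closure, every `τ > 0` and `c` there is `N` such that all but
finitely many of the `t ∈ K` with `dist (p t, z) ≤ c H(t) ^ (-τ)` are good for `θ = 3 / N`, `κ = 1 / N`: that is, for ALL primes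
`ℓ ≥ max (5, N)` and all `M` as above.

(3) One set `Z ⊆ ℂ` of dimension zero serves all number fields `K` in `ℂ` in (2).
-/

set_option autoImplicit false

namespace Pool.Agent.Results.MP_cda23d_nt.ParametersNearGivenPoints

open Polynomial Pool.Agent.Q138.PS
open Pool.Agent.Results.MP_d87173_nt.DegreeFreeUniformity
open Pool.Agent.Q138.AI.Rcda23d

/-- `F / G` is a nonconstant rational function, `F` and `G` coprime -/
structure Fraction {K : Type} [Field K] (F G : K[X]) : Prop where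
  coprime : IsCoprime F G
  ne : G ≠ 0
  nonconstant : 0 < F.natDegree ∨ 0 < G.natDegree

/-- `t` is good for `(θ, κ)`: `G(t) ≠ 0` and the image contains `SL₂(𝔽_ℓ)` for all primes `ℓ ≥ max (5, 3 / θ)` and all elliptic
curves of invariant `F(t) / G(t)` over all finite extensions of `K` with root discriminant at most `δ_K * H(F(t) / G(t)) ^ κ`. -/
def Good {K : Type} [Field K] [NumberField K] (F G : K[X]) (θ κ : ℝ) (t : K) : Prop :=
  G.eval t ≠ 0 ∧ InExtensions κ θ (F.eval t / G.eval t)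

/-- The elements of `K` whose images are within `c H(t) ^ (-τ)` of `z`. -/
def Near {K Y : Type} [Field K] [NumberField K] [MetricSpace Y] (p : K → Y) (z : Y) (c τ : ℝ) : Set K :=
  {t | dist (p t) z ≤ c * Height.mulHeight₁ t ^ (-τ)}

/-- the exceptional elements in the notation of the input -/
theorem exc_eq {K : Type} [Field K] [NumberField K] (F G : K[X]) (θ κ X : ℝ) :
    {t | t ∈ {t : K | ¬ Good F G θ κ t} ∧ Height.mulHeight₁ t ≤ X} = Exceptional F G K θ κ X := by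
  ext t
  unfold Exceptional Good
  simp only [Set.mem_setOf_eq, Algebra.algebraMap_self, Polynomial.map_id]
  exact and_comm

theorem swap {K Y : Type} [Field K] [NumberField K] [MetricSpace Y] (p : K → Y) (z : Y) (c τ θ κ : ℝ) (F G : K[X]) :
    {t | t ∈ Near p z c τ ∧ ¬ Good F G θ κ t} =
      {t | t ∈ {t : K | ¬ Good F G θ κ t} ∧ dist (p t) z ≤ c * Height.mulHeight₁ t ^ (-τ)} := by
  ext t
  exact and_comm

/-- one family -/
theorem one_pole {K : Type} [Field K] [NumberField K] {Y : Type} [MetricSpace Y] [MeasurableSpace Y] [BorelSpace Y] (p : K → Y)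
    {F G : K[X]} (hF : Fraction F G) {θ κ τ : ℝ} (hθ : 0 ≤ θ) (hκ : 0 ≤ κ) (hτ : 0 < τ) :
    ∃ Z : Set Y, dimH Z ≤ ENNReal.ofReal ((1 + (max F.natDegree G.natDegree : ℕ) * (θ + κ)) / τ) ∧
      ∀ z, z ∉ Z → ∀ c : ℝ, {t | t ∈ Near p z c τ ∧ ¬ Good F G θ κ t}.Finite := by
  obtain ⟨A, hA, h⟩ := Pool.Agent.Q138.AI.Rcda23d.result.1 K F G hF.coprime hF.ne hF.nonconstant
  obtain ⟨Z, hZ, hz⟩ := fin_lim p {t : K | ¬ Good F G θ κ t} (fun t => Height.mulHeight₁ t)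
    (fun t => Height.one_le_mulHeight₁ t) (1 + (max F.natDegree G.natDegree : ℕ) * (θ + κ)) (by positivity) (by
      intro ε hε
      obtain ⟨C, hC, h1⟩ := h (Module.finrank ℚ K) θ κ ε hθ hκ hε
      refine ⟨C, fun T hT => ?_⟩
      obtain ⟨h2, h3, -⟩ := h1 K le_rfl T hT
      rw [exc_eq]
      exact ⟨h2, h3⟩) τ hτ
  refine ⟨Z, hZ, fun z hzZ c => ?_⟩
  rw [swap]
  exact hz z hzZ c

theorem two_poles {K : Type} [Field K] [NumberField K] {Y : Type} [MetricSpace Y] [MeasurableSpace Y] [BorelSpace Y] (p : K → Y)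
    {F G : K[X]} (hF : Fraction F G) (hT : TwoPoles K F G) :
    ∃ Z : Set Y, dimH Z = 0 ∧ ∀ z, z ∉ Z → ∀ τ c : ℝ, 0 < τ → ∃ N : ℕ, 0 < N ∧
      {t | t ∈ Near p z c τ ∧ ¬ Good F G (3 / N) (1 / N) t}.Finite := by
  obtain ⟨A, hA, h⟩ := Pool.Agent.Q138.AI.Rcda23d.result.1 K F G hF.coprime hF.ne hF.nonconstant
  obtain ⟨Z, hZ, hz⟩ := fin_eps p (fun N : ℕ => {t : K | ¬ Good F G (3 / (N + 1 : ℕ)) (1 / (N + 1 : ℕ)) t})
    (fun t => Height.mulHeight₁ t) (fun t => Height.one_le_mulHeight₁ t) (by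
      intro ε hε
      obtain ⟨N, hN⟩ := exists_nat_gt (8 * A / ε)
      have hN1 : (0 : ℝ) < ((N + 1 : ℕ) : ℝ) := by positivity
      obtain ⟨C, hC, h1⟩ := h (Module.finrank ℚ K) (3 / (N + 1 : ℕ)) (1 / (N + 1 : ℕ)) (ε / 2) (by positivity)
        (by positivity) (by positivity)
      refine ⟨N, C, fun T hT' => ?_⟩
      obtain ⟨h2, -, h3⟩ := h1 K le_rfl T hT'
      rw [exc_eq]
      refine ⟨h2, (h3 hT).trans (mul_le_mul_of_nonneg_left (Real.rpow_le_rpow_of_exponent_le hT' ?_) hC.le)⟩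
      have h4 : A * (3 / ((N + 1 : ℕ) : ℝ) + 1 / ((N + 1 : ℕ) : ℝ)) ≤ ε / 2 := by
        rw [← add_div, mul_div_assoc', div_le_iff₀ hN1]
        rw [div_lt_iff₀ hε] at hN
        push_cast
        nlinarith
      linarith)
  refine ⟨Z, hZ, fun z hzZ τ c hτ => ?_⟩
  obtain ⟨N, hN⟩ := hz z hzZ τ c hτ
  refine ⟨N + 1, Nat.succ_pos N, ?_⟩
  rw [swap]
  exact hN

theorem all_two_poles (K : Type) [Field K] [NumberField K] (Y : Type) [MetricSpace Y] [MeasurableSpace Y] [BorelSpace Y]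
    (p : K → Y) : ∃ Z : Set Y, dimH Z = 0 ∧ ∀ z, z ∉ Z → ∀ F G : K[X], Fraction F G → TwoPoles K F G →
      ∀ τ c : ℝ, 0 < τ → ∃ N : ℕ, 0 < N ∧ {t | t ∈ Near p z c τ ∧ ¬ Good F G (3 / N) (1 / N) t}.Finite := by
  have hcount := countable_poly K
  have h : ∀ q : {q : K[X] × K[X] // Fraction q.1 q.2 ∧ TwoPoles K q.1 q.2}, ∃ Z : Set Y, dimH Z = 0 ∧ ∀ z, z ∉ Z →
      ∀ τ c : ℝ, 0 < τ → ∃ N : ℕ, 0 < N ∧ {t | t ∈ Near p z c τ ∧ ¬ Good q.1.1 q.1.2 (3 / N) (1 / N) t}.Finite :=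
    fun q => two_poles p q.2.1 q.2.2
  choose Z hZ hz using h
  refine ⟨⋃ q, Z q, le_antisymm (dimH_union_le Z 0 fun q => (hZ q).le) bot_le, fun z hzZ F G hF hT τ c hτ => ?_⟩
  exact hz ⟨(F, G), hF, hT⟩ z (fun hh => hzZ (Set.mem_iUnion.2 ⟨_, hh⟩)) τ c hτ

/-- **Theorem.** -/
theorem result :
    (∀ (K : Type) [Field K] [NumberField K] (Y : Type) [MetricSpace Y] [MeasurableSpace Y] [BorelSpace Y] (p : K → Y),
      (∀ (D : ℕ) (θ κ τ : ℝ), 0 ≤ θ → 0 ≤ κ → 0 < τ → ∃ Z : Set Y, dimH Z ≤ ENNReal.ofReal ((1 + D * (θ + κ)) / τ) ∧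
        ∀ z, z ∉ Z → ∀ F G : K[X], Fraction F G → F.natDegree ≤ D → G.natDegree ≤ D → ∀ c : ℝ,
          {t | t ∈ Near p z c τ ∧ ¬ Good F G θ κ t}.Finite) ∧
      ∃ Z : Set Y, dimH Z = 0 ∧ ∀ z, z ∉ Z → ∀ F G : K[X], Fraction F G → TwoPoles K F G → ∀ τ c : ℝ, 0 < τ →
        ∃ N : ℕ, 0 < N ∧ {t | t ∈ Near p z c τ ∧ ¬ Good F G (3 / N) (1 / N) t}.Finite) ∧
    ∃ Z : Set ℂ, dimH Z = 0 ∧ ∀ z, z ∉ Z → ∀ (K : IntermediateField ℚ ℂ) [NumberField K] (F G : K[X]), Fraction F G →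
      TwoPoles K F G → ∀ τ c : ℝ, 0 < τ → ∃ N : ℕ, 0 < N ∧
        {t | t ∈ Near (fun t : K => (t : ℂ)) z c τ ∧ ¬ Good F G (3 / N) (1 / N) t}.Finite := by
  refine ⟨fun K _ _ Y _ _ _ p => ⟨?_, all_two_poles K Y p⟩, ?_⟩
  · intro D θ κ τ hθ hκ hτ
    have hcount := countable_poly K
    have h : ∀ q : {q : K[X] × K[X] // Fraction q.1 q.2 ∧ q.1.natDegree ≤ D ∧ q.2.natDegree ≤ D}, ∃ Z : Set Y,
        dimH Z ≤ ENNReal.ofReal ((1 + D * (θ + κ)) / τ) ∧ ∀ z, z ∉ Z →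
        ∀ c : ℝ, {t | t ∈ Near p z c τ ∧ ¬ Good q.1.1 q.1.2 θ κ t}.Finite := by
      rintro ⟨⟨F, G⟩, hF, h1, h2⟩
      obtain ⟨Z, hZ, hz⟩ := one_pole p hF hθ hκ hτ
      refine ⟨Z, hZ.trans (ENNReal.ofReal_le_ofReal ?_), hz⟩
      have h3 : ((max F.natDegree G.natDegree : ℕ) : ℝ) ≤ D := by exact_mod_cast max_le h1 h2
      gcongr
    choose Z hZ hz using h
    refine ⟨⋃ q, Z q, dimH_union_le Z _ hZ, fun z hzZ F G hF h1 h2 c => ?_⟩
    exact hz ⟨(F, G), hF, h1, h2⟩ z (fun hh => hzZ (Set.mem_iUnion.2 ⟨_, hh⟩)) c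
  · have hcN := countN
    have h2 : ∀ K : {K : IntermediateField ℚ ℂ // NumberField K}, ∃ Z : Set ℂ, dimH Z = 0 ∧ ∀ z, z ∉ Z →
        ∀ (_ : NumberField K.1) (F G : K.1[X]), Fraction F G → TwoPoles K.1 F G → ∀ τ c : ℝ, 0 < τ → ∃ N : ℕ, 0 < N ∧
          {t | t ∈ Near (fun t : K.1 => (t : ℂ)) z c τ ∧ ¬ Good F G (3 / N) (1 / N) t}.Finite := by
      rintro ⟨K, hK⟩
      obtain ⟨Z, hZ, hz⟩ := all_two_poles K ℂ (fun t : K => (t : ℂ))
      exact ⟨Z, hZ, fun z hzZ _ => hz z hzZ⟩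
    choose Z hZ hz using h2
    refine ⟨⋃ K, Z K, le_antisymm (dimH_union_le Z 0 fun q => (hZ q).le) bot_le, fun z hzZ K hK F G hF hT τ c hτ => ?_⟩
    exact hz ⟨K, hK⟩ z (fun hh => hzZ (Set.mem_iUnion.2 ⟨_, hh⟩)) hK F G hF hT τ c hτ

end Pool.Agent.Results.MP_cda23d_nt.ParametersNearGivenPoints
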