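import Pool.Agent.Q170.SU.Open

/-!
# MP_cda23d_nt: the full image, uniformly in the prime and in the number field, for almost all members of
# families with several parameters

Let `F/G` be a rational function of `r` parameters `t = (t_1, …, t_r)`, a quotient of polynomials with
integral coefficients of degree at most `d`. We consider the elliptic curves `E_t` with the invariant
`j(E_t) = F(t)/G(t)`, for integral `t`; all twists are admitted. We suppose only that the invariant has
a pole along some hypersurface `P = 0`: the polynomial `P` is irreducible, not constant, it divides `G`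
exactly `w ≥ 1` times and does not divide `F`. Let `N ≥ 5`, `N > w`, and `ε > 0`.

We say that a number field `L` is *slightly ramified* at `p` if no ramification index of `L` over `ℚ`,
above any prime number, is divisible by `p`, and the ramification indices above `p` are less than
`(p² - 1)/8`. There is no condition on the degree: for instance, if all ramification indices are less
than `p ≥ 11`, then `L` is slightly ramified at `p`, and so are all `L` of degree less than `p` if
`8 [L : ℚ] + 1 < p²` (which follows for `p ≥ 11`), see (1).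

**Theorem.** (2) All but at most `C H ^ (r - 1 + deg P / N + ε)` of the about `(2 H) ^ r` integral `t`
with `|t_j| ≤ H` have the following property: for ALL primes `p ≥ N`, ALL number fields `L`, of whatever
degree, slightly ramified at `p`, and ALL elliptic curves `E` over `L` with the invariant `F(t)/G(t)`, the
order of the image of `Gal(L̄/L)` in `Aut(E[p])` is divisible by `p`.

(3) For all but at most `C H ^ (r - 1 + (deg P + 2 d / w) / N + ε)` of these `t` the image even
CONTAINS `SL₂(𝔽_p)` for all these `p`, `L` and `E`.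

(4) Let `θ, κ ≥ 0`. For all but at most `C H ^ (r - 1 + θ d + κ + ε)` of these `t` the image contains
`SL₂(𝔽_p)` for ALL number fields `L` of root discriminant at most `H ^ κ`, of whatever degree and
ramification, all elliptic curves over `L` with the invariant `F(t)/G(t)` and ALL primes `p ≥ 5` with
`p ≥ 3 / θ`.

The exponent `r - 1`, which we approach for `N → ∞`, is the best possible, since `F = j₀ G` for the
invariants `j₀` of curves with complex multiplication is the equation of a hypersurface, which contains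
that many integral points in many cases (for instance, `j = t_1/t_2`). For `L = ℚ` this is Serre's
uniformity for 100 per cent of the members of every such family, with an explicit bound `N` for the
primes; but the property holds at the same time over all slightly ramified number fields and over all
number fields of root discriminant at most `H ^ κ`.

Examples. (a) `j = t_1/t_2`, all rational invariants, `P = t_2`, `d = w = 1`: there are about
`(2 H) ^ 2` pairs and at most `C H ^ (1 + 3/N + ε)` exceptions in (3), for all primes `p ≥ N`, where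
`N = 5` is admitted. (b) `y² = x³ + Ax + B`, two parameters, `P = 4A³ + 27B²`, `d = 3`: at most
`C H ^ (1 + 9/N + ε)`, `N ≥ 11`; or with polynomials `A(t), B(t)` in any number of parameters. (c) Any
rational function of one variable, homogeneous with `t = t_1/t_2`.

Known results. For a fixed field `L` it is known that the image of the Galois group in the automorphism
group of all torsion points is as large as it can be for 100 per cent of the members of a family
(Duke, Jones, Cojocaru-Grant-Jones, Zywina, Landesman-Swaminathan-Tao-Xu), by the large sieve, with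
a saving of `H ^ (1/2)`, and the theorem of Masser and Wüstholz for large primes. New are the exponent
`r - 1`, and the uniformity in `L`. The starting file `MP_cda23d_nt.ExplicitWithoutSL` is about the
family of all curves and the primes `p ≤ exp (c √(log H))`; `MP_d87173_nt.FewRationalParameters` is
about one rational parameter and two poles.

**Proof.** Let `q` be a prime dividing `P(t)` which does not divide the value of a resultant of `P` and
`F G / P^w` with respect to one of the parameters. So `v_q(j) = - w v_q(P(t)) < 0`. By the local theorem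
of the starting files (`Pool.Agent.Y673.Loc.core`), which includes the case `q = p`, `p` divides `v(j)` for
the places `v` of `L` if the order of the image is not divisible by `p`. Since the ramification
indices and `w` are not divisible by `p`, `p` divides `v_q(P(t))`. So `P(t)` is a `p`-th power up
to prime factors of the resultant. For given values of the other parameters there are at most
`C H ^ (deg P / N + ε)` such numbers. If the image does not contain `SL₂(𝔽_p)`, then by the degree free
inequality of helper237 (`MP_d87173_nt.DegreeFreeUniformity`) the part of the height of `j` at the places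
with `p ∤ v(j)` is at most `2 / (p - 1)` of the height and a constant; so `P(t)` is the product of a number
which is at most `C H ^ (2 d / (w (N - 1)))` and a `p`-th power, up to the prime factors of the
resultant. For (4) we use that `log N v`, summed over all poles `v` of `j`, is at most
`3 / p` of the height and a constant, and that it is at least `log q`, summed over the prime factors
`q` of `P(t)` as above, minus the logarithm of the root discriminant.
-/

set_option autoImplicit false

open MvPolynomial NumberField IsDedekindDomain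
open scoped Classical

namespace Pool.Agent.Results.MP_cda23d_nt.UniformOpenImage

section
variable {L : Type} [Field L]

/-- The curve `y² = x³ + Ax + B` over `L`. -/
def curve (A B : L) : WeierstrassCurve L := ⟨0, 0, 0, A, B⟩

/-- The group of its points over the algebraic closure of `L`. -/
abbrev Points (A B : L) : Type := ((curve A B).baseChange (AlgebraicClosure L)).toAffine.Point

/-- The action of an `L`-automorphism `σ` of the algebraic closure on the points. -/
noncomputable def galois (A B : L) (σ : AlgebraicClosure L ≃ₐ[L] AlgebraicClosure L) :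
    Points A B →+ Points A B :=
  WeierstrassCurve.Affine.Point.map (σ : AlgebraicClosure L →ₐ[L] AlgebraicClosure L)

/-- Some `σ` acts on the `p`-torsion with order `p`: its `p`-th power acts trivially on the
`p`-torsion, and `σ` does not.  For a prime `p` this says that the order of the image of the Galois
group in the automorphism group of the `p`-torsion is divisible by `p`. -/
def OrderDivisible (A B : L) (p : ℕ) : Prop :=
  ∃ σ : AlgebraicClosure L ≃ₐ[L] AlgebraicClosure L,
    (∀ P : Points A B, p • P = 0 → galois A B (σ ^ p) P = P) ∧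
    ∃ P : Points A B, p • P = 0 ∧ galois A B σ P ≠ P

/-- The points `P` and `Q` form a basis of the `p`-torsion. -/
def IsBasis (A B : L) (p : ℕ) (P Q : Points A B) : Prop :=
  p • P = 0 ∧ p • Q = 0 ∧
    (∀ R : Points A B, p • R = 0 → ∃ m n : ℤ, R = m • P + n • Q) ∧
    ∀ m n : ℤ, m • P + n • Q = 0 → (p : ℤ) ∣ m ∧ (p : ℤ) ∣ n

/-- The image of the Galois group in the automorphism group of the `p`-torsion contains all
automorphisms of determinant `1`: there is a basis of the `p`-torsion in which every matrix of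
determinant `1` modulo `p` is the matrix of some `σ`. -/
def ContainsSL (A B : L) (p : ℕ) : Prop :=
  ∃ P Q : Points A B, IsBasis A B p P Q ∧
    ∀ a b c d : ℤ, (p : ℤ) ∣ a * d - b * c - 1 →
      ∃ σ : AlgebraicClosure L ≃ₐ[L] AlgebraicClosure L,
        galois A B σ P = a • P + c • Q ∧ galois A B σ Q = b • P + d • Q

/-- The invariant of `y² = x³ + Ax + B`. -/
noncomputable def jInvariant (A B : L) : L := 6912 * A ^ 3 / (4 * A ^ 3 + 27 * B ^ 2)

end

/-- No ramification index `e` of `L` over `ℚ`, above any prime number `q`, is divisible by `p`, and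
those above `p` are less than `(p² - 1)/8`. -/
def SlightlyRamified (p : ℕ) (L : Type) [Field L] [NumberField L] : Prop :=
  ∀ (v : HeightOneSpectrum (𝓞 L)) (q e : ℕ), q.Prime → 1 ≤ e →
    (q : 𝓞 L) ∈ v.asIdeal ^ e → (q : 𝓞 L) ∉ v.asIdeal ^ (e + 1) →
      ¬ p ∣ e ∧ (q = p → 8 * e + 1 < p ^ 2)

/-- For all primes `p ≥ N`, all number fields `L` which are slightly ramified at `p`, and all elliptic
curves over `L` with the invariant `j` the order of the image of the Galois group of `L` in the
automorphism group of the `p`-torsion is divisible by `p`. -/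
def AllOrdersDivisible (N : ℕ) (j : ℚ) : Prop :=
  ∀ p : ℕ, p.Prime → N ≤ p → ∀ (L : Type) [Field L] [NumberField L], SlightlyRamified p L →
    ∀ A B : L, 4 * A ^ 3 + 27 * B ^ 2 ≠ 0 → jInvariant A B = algebraMap ℚ L j →
      OrderDivisible A B p

/-- For all primes `p ≥ N`, all number fields `L` which are slightly ramified at `p`, and all elliptic
curves over `L` with the invariant `j` the image contains `SL₂(𝔽_p)`. -/
def AllContainSL (N : ℕ) (j : ℚ) : Prop :=
  ∀ p : ℕ, p.Prime → N ≤ p → ∀ (L : Type) [Field L] [NumberField L], SlightlyRamified p L →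
    ∀ A B : L, 4 * A ^ 3 + 27 * B ^ 2 ≠ 0 → jInvariant A B = algebraMap ℚ L j →
      ContainsSL A B p

/-- For all primes `p ≥ 5` with `p ≥ 3 / θ`, all number fields `L` of root discriminant at most `D`, and
all elliptic curves over `L` with the invariant `j` the image contains `SL₂(𝔽_p)`. -/
def AllContainSLDisc (θ D : ℝ) (j : ℚ) : Prop :=
  ∀ p : ℕ, p.Prime → 5 ≤ p → 3 ≤ θ * p → ∀ (L : Type) [Field L] [NumberField L],
    |(discr L : ℝ)| ≤ D ^ Module.finrank ℚ L →
    ∀ A B : L, 4 * A ^ 3 + 27 * B ^ 2 ≠ 0 → jInvariant A B = algebraMap ℚ L j →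
      ContainsSL A B p

theorem mild_of {p : ℕ} {L : Type} [Field L] [NumberField L] (h : SlightlyRamified p L) :
    Pool.Agent.Q170.SU.Mild L p := by
  intro v q hq hmem
  have hpos := Pool.Agent.Q170.FZ.adv_pos v hq hmem
  have hq0 : (q : 𝓞 L) ≠ 0 := Nat.cast_ne_zero.2 hq.ne_zero
  have e : algebraMap (𝓞 L) L (q : 𝓞 L) = (q : L) := map_natCast _ q
  obtain ⟨n, hn⟩ : ∃ n : ℕ, (n : ℤ) = (Pool.Agent.Y673.Loc.adv L v).v (q : L) :=
    ⟨_, Int.toNat_of_nonneg (by omega)⟩
  have h1 : 1 ≤ n := by omega
  have h2 := (Pool.Agent.Y673.Loc.le_adv_iff L v (q : 𝓞 L) hq0 n).1 (by rw [e, hn])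
  have h3 : (q : 𝓞 L) ∉ v.asIdeal ^ (n + 1) := by
    intro h4
    have h5 := (Pool.Agent.Y673.Loc.le_adv_iff L v (q : 𝓞 L) hq0 (n + 1)).2 h4
    rw [e, ← hn] at h5
    push_cast at h5
    omega
  obtain ⟨h4, h5⟩ := h v q n hq h1 h2 h3
  rw [← hn]
  refine ⟨fun h6 => h4 (by exact_mod_cast h6), fun h6 => ?_⟩
  have h7 : (8 : ℤ) * n + 1 < (p : ℤ) ^ 2 := by exact_mod_cast h5 h6
  omega

theorem of_mild {p : ℕ} {L : Type} [Field L] [NumberField L]
    (h : Pool.Agent.Q170.SU.Mild L p) : SlightlyRamified p L := by
  intro v q n hq h1 h2 h3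
  have hmem : (q : 𝓞 L) ∈ v.asIdeal := by
    have h4 := Ideal.pow_le_pow_right (I := v.asIdeal) h1 h2
    rwa [pow_one] at h4
  have hq0 : (q : 𝓞 L) ≠ 0 := Nat.cast_ne_zero.2 hq.ne_zero
  have e : algebraMap (𝓞 L) L (q : 𝓞 L) = (q : L) := map_natCast _ q
  have h4 := (Pool.Agent.Y673.Loc.le_adv_iff L v (q : 𝓞 L) hq0 n).2 h2
  have h5 : ¬ ((n + 1 : ℕ) : ℤ) ≤ (Pool.Agent.Y673.Loc.adv L v).v (q : L) := by
    intro h6
    rw [← e] at h6
    exact h3 ((Pool.Agent.Y673.Loc.le_adv_iff L v (q : 𝓞 L) hq0 (n + 1)).1 h6)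
  rw [e] at h4
  push_cast at h5
  have hn : (Pool.Agent.Y673.Loc.adv L v).v (q : L) = n := by omega
  obtain ⟨h6, h7⟩ := h v q hq hmem
  rw [hn] at h6 h7
  refine ⟨fun h8 => h6 (by exact_mod_cast h8), fun h8 => ?_⟩
  have h9 := h7 h8
  have h10 : (8 : ℤ) * n + 1 < (p : ℤ) ^ 2 := by omega
  exact_mod_cast h10

theorem containsSL_of {K : Type} [Field K] [CharZero K] {A B : K}
    (hD : 4 * A ^ 3 + 27 * B ^ 2 ≠ 0) {p : ℕ} (hp : p.Prime)
    (h : Pool.Agent.Y673.SL.HasSL A B p) : ContainsSL A B p := by
  obtain ⟨P, Q, h1, h2, h3, h4, h5⟩ := h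
  obtain ⟨h6, h7⟩ := Pool.Agent.Y673.SL.basis hD hp h1 h2 h3 h4
  exact ⟨P, Q, ⟨h1, h2, h6, h7⟩, h5⟩

/-- from finite sets to the number of elements -/
theorem to_ncard {r : ℕ} {G : MvPolynomial (Fin r) ℤ} {Q : (Fin r → ℤ) → ℕ → Prop} {X : ℕ → ℝ}
    (h : ∀ H : ℕ, 1 ≤ H → ∀ Bad : Finset (Fin r → ℤ),
      Bad ⊆ Pool.Agent.Q170.ZP.Count.box r H → (∀ t ∈ Bad, eval t G ≠ 0 ∧ Q t H) →
        (Bad.card : ℝ) ≤ X H) (H : ℕ) (hH : 1 ≤ H) (S : Set (Fin r → ℤ))
    (hS : ∀ t ∈ S, (∀ j, |t j| ≤ H) ∧ eval t G ≠ 0 ∧ Q t H) : ((S.ncard : ℕ) : ℝ) ≤ X H := by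
  have hsub : S ⊆ ((Pool.Agent.Q170.ZP.Count.box r H : Finset (Fin r → ℤ)) :
      Set (Fin r → ℤ)) := by
    intro t ht
    exact Finset.mem_coe.2 (Pool.Agent.Q170.ZP.Count.mem_box.2 (hS t ht).1)
  have hfin : S.Finite := (Finset.finite_toSet _).subset hsub
  rw [Set.ncard_eq_toFinset_card S hfin]
  exact h H hH hfin.toFinset (fun t ht => Finset.mem_coe.1 (hsub (hfin.mem_toFinset.1 ht)))
    (fun t ht => (hS t (hfin.mem_toFinset.1 ht)).2)

/-- **The full image for almost all members of families with several parameters.** -/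
theorem result :
    -- (1) all number fields of degree less than `p` are slightly ramified at `p ≥ 11`
    (∀ (p : ℕ) (L : Type) [Field L] [NumberField L], Module.finrank ℚ L < p →
      8 * Module.finrank ℚ L + 1 < p ^ 2 → SlightlyRamified p L) ∧
    ∀ (r : ℕ) (F G P : MvPolynomial (Fin r) ℤ) (w : ℕ), Irreducible P → 0 < P.totalDegree →
      1 ≤ w → P ^ w ∣ G → ¬ P ^ (w + 1) ∣ G → ¬ P ∣ F → ∀ ε : ℝ, 0 < ε →
      -- (2) the order
      (∀ N : ℕ, 5 ≤ N → w < N → ∃ C : ℝ, 0 < C ∧ ∀ H : ℕ, 1 ≤ H →
        (({t : Fin r → ℤ | (∀ j, |t j| ≤ H) ∧ eval t G ≠ 0 ∧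
          ¬ AllOrdersDivisible N ((eval t F : ℚ) / (eval t G : ℚ))}.ncard : ℕ) : ℝ) ≤
          C * (H : ℝ) ^ ((r : ℝ) - 1 + P.totalDegree / (N : ℝ) + ε)) ∧
      -- (3) the full image
      (∀ N : ℕ, 5 ≤ N → w < N → ∃ C : ℝ, 0 < C ∧ ∀ H : ℕ, 1 ≤ H →
        (({t : Fin r → ℤ | (∀ j, |t j| ≤ H) ∧ eval t G ≠ 0 ∧
          ¬ AllContainSL N ((eval t F : ℚ) / (eval t G : ℚ))}.ncard : ℕ) : ℝ) ≤
          C * (H : ℝ) ^ ((r : ℝ) - 1 + (P.totalDegree +
            2 * (max F.totalDegree G.totalDegree : ℕ) / (w : ℝ)) / N + ε)) ∧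
      -- (4) the full image over all number fields of small root discriminant
      (∀ θ κ : ℝ, 0 ≤ θ → 0 ≤ κ → ∃ C : ℝ, 0 < C ∧ ∀ H : ℕ, 1 ≤ H →
        (({t : Fin r → ℤ | (∀ j, |t j| ≤ H) ∧ eval t G ≠ 0 ∧
          ¬ AllContainSLDisc θ ((H : ℝ) ^ κ) ((eval t F : ℚ) / (eval t G : ℚ))}.ncard : ℕ) : ℝ) ≤
          C * (H : ℝ) ^ ((r : ℝ) - 1 + θ * (max F.totalDegree G.totalDegree : ℕ) + κ + ε)) := by
  refine ⟨fun p L _ _ h1 h2 => of_mild (Pool.Agent.Q170.SU.mild_of_degree h1 h2), ?_⟩
  intro r F G P w hP hPd hw hw1 hw2 hPF ε hε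
  refine ⟨fun N hN hwN => ?_, fun N hN hwN => ?_, fun θ κ hθ hκ => ?_⟩
  · obtain ⟨C, hC, h⟩ :=
      Pool.Agent.Q170.SU.count_ord F G P hP hPd w hw hw1 hw2 hPF N hN hwN ε hε
    refine ⟨C, hC, fun H hH => to_ncard (Q := fun t _ => Pool.Agent.Q170.SU.NoOrd N (eval t F)
      (eval t G)) (X := fun H => C * (H : ℝ) ^ ((r : ℝ) - 1 + P.totalDegree / (N : ℝ) + ε))
      h H hH _ ?_⟩
    rintro t ⟨h1, h2, h3⟩
    refine ⟨h1, h2, ?_⟩
    unfold AllOrdersDivisible at h3
    push Not at h3
    obtain ⟨p, hp, hNp, L, iF, iN, hL, A, B, hD, hj, hno⟩ := h3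
    refine ⟨p, hp, hNp, L, iF, iN, mild_of hL, A, B, hD, ?_, hno⟩
    refine hj.trans ?_
    rw [map_div₀, map_intCast, map_intCast]
  · obtain ⟨C, hC, h⟩ :=
      Pool.Agent.Q170.SU.count_SL F G P hP hPd w hw hw1 hw2 hPF N hN hwN ε hε
    refine ⟨C, hC, fun H hH => to_ncard (Q := fun t _ => Pool.Agent.Q170.SU.NoSL N (eval t F)
      (eval t G)) (X := fun H => C * (H : ℝ) ^ ((r : ℝ) - 1 + (P.totalDegree +
            2 * (max F.totalDegree G.totalDegree : ℕ) / (w : ℝ)) / N + ε))
      h H hH _ ?_⟩
    rintro t ⟨h1, h2, h3⟩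
    refine ⟨h1, h2, ?_⟩
    unfold AllContainSL at h3
    push Not at h3
    obtain ⟨p, hp, hNp, L, iF, iN, hL, A, B, hD, hj, hno⟩ := h3
    refine ⟨p, hp, hNp, L, iF, iN, mild_of hL, A, B, hD, ?_, fun h4 =>
      hno (containsSL_of hD hp h4)⟩
    refine hj.trans ?_
    rw [map_div₀, map_intCast, map_intCast]
  · obtain ⟨C, hC, h⟩ :=
      Pool.Agent.Q170.SU.count_disc F G P hP hPd w hw hw1 hw2 hPF θ κ hθ hκ ε hε
    refine ⟨C, hC, fun H hH => to_ncard (Q := fun t H => Pool.Agent.Q170.SU.NoSLD θ
      (κ * Real.log H) (eval t F) (eval t G)) (X := fun H => C * (H : ℝ) ^ ((r : ℝ) - 1 +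
        θ * (max F.totalDegree G.totalDegree : ℕ) + κ + ε)) h H hH _ ?_⟩
    rintro t ⟨h1, h2, h3⟩
    refine ⟨h1, h2, ?_⟩
    unfold AllContainSLDisc at h3
    push Not at h3
    obtain ⟨p, hp, hp5, hpθ, L, iF, iN, hL, A, B, hD, hj, hno⟩ := h3
    refine ⟨p, hp, hp5, hpθ, L, iF, iN, ?_, A, B, hD, ?_, fun h4 =>
      hno (containsSL_of hD hp h4)⟩
    · have hH0 : (0 : ℝ) < H := by exact_mod_cast hH
      have hd : (0 : ℝ) < |(discr L : ℝ)| := by
        rw [abs_pos]
        exact_mod_cast NumberField.discr_ne_zero L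
      have h5 := Real.log_le_log hd hL
      rw [Real.log_pow, Real.log_rpow hH0] at h5
      exact h5
    · refine hj.trans ?_
      rw [map_div₀, map_intCast, map_intCast]

end Pool.Agent.Results.MP_cda23d_nt.UniformOpenImage
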